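import Pool.Agent.Y776.Cv.Pad
import Pool.Agent.Y776.AxJ.Alg
import Pool.Agent.X255.RH.Main

/-!
# The functions `z`, `℘ (b_j z)`, `ζ (b_j z)`: independence in the variable `ζ (z)`

`loc_fix` is copied from `Pool/Agent/X39/Near/Ax.lean`, and the lemmas on the functions from
`Pool/Agent/Results/MP_0c15f2_nt/ApproximationsOfAllNumbers.lean` (to avoid heavy imports).
-/

set_option autoImplicit false

open Filter Topology Set MvPolynomial
open scoped PeriodPair

noncomputable section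

namespace Pool.Agent.H39WZ

open H667R3 Pool.Agent.W245.EB Pool.Agent.TH813.Ell Pool.Agent.Y685 Pool.Agent.Y685.H2
open Pool.Agent.Y776.Fam (TS TS_countable Gn countable_Gn exists_D LF countable_zeros IndC exists_cf
  exists_notMem exists_den)
open Pool.Agent.TH813.G (NoHom)
open Pool.Agent.TH813.Rel (DF MK rk_le_of_subset_cl subset_cl)
open Pool.Agent.Y776.Cv
open Pool.Agent.Y124 (LocInd)

section
variable {U : Set ℂ} {n s q : ℕ} {Λ : Fin q → PeriodPair} {ty : Fin n → Fin q}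
  {u : Fin n → ℂ → ℂ} {l : Fin s → ℂ → ℂ}

/-- **all functions of a family are independent** -/
theorem loc_fix (h : FxM U Λ ty u l) (hns : 0 < s + n) (hne : U.Nonempty) {κ : Type} [Fintype κ] {y : κ → ℂ → ℂ}
    (hy : ∀ k, AnalyticOnNhd ℂ (y k) U) (hκ : Fintype.card κ = s + 2 * n) {G : Set ℂ}
    (hG : G.Countable)
    (hsub : ∀ F : IntermediateField ℚ ℂ, G ⊆ F → ∀ z ∈ U, ∀ k,
      yf Λ ty u l k z ∈ clo F (insert z (Set.range fun k => y k z))) :
    ∀ t ∈ U, LocInd y t := by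
  classical
  obtain ⟨zs, hzs⟩ := hne
  obtain ⟨F, hFc, hF⟩ := exists_cf
    (T := (TS y zs ∪ (Set.range (fun c => (Λ c).g₂) ∪ Set.range (fun c => (Λ c).g₃))) ∪ G)
    (((TS_countable _ _).union ((Set.countable_range _).union (Set.countable_range _))).union hG)
  obtain ⟨z₀, hz₀, hnot⟩ := exists_notMem h.isOpen ⟨zs, hzs⟩ (countable_Gp h hFc ⟨zs, hzs⟩)
  have g : Gp U Λ ty u l F z₀ := by
    by_contra hcon
    exact hnot ⟨hz₀, hcon⟩
  have hr := rank_Gp h hns (fun c => hF (Or.inl (Or.inr (Or.inl ⟨c, rfl⟩))))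
    (fun c => hF (Or.inl (Or.inr (Or.inr ⟨c, rfl⟩)))) g
  obtain ⟨e, he, hL⟩ := exists_sub h.conn h.isOpen hy hzs
    (fun x hx => hF (Or.inl (Or.inl hx))) hz₀ g.tr
    (hr.trans (rk_le_of_subset_cl (by
      rintro _ ⟨k, rfl⟩
      rw [← mem_clo_iff]
      exact hsub F (fun x hx => hF (Or.inr hx)) z₀ hz₀ k)))
  have hb : Function.Bijective e :=
    (Fintype.bijective_iff_injective_and_card e).2 ⟨he, by rw [Fintype.card_fin, hκ]⟩
  exact fun t ht => Pool.Agent.Y776.AxJ.locInd_equiv (Equiv.ofBijective e hb) (hL t ht)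

end

/-- the Weierstrass zeta function of the lattice `L` (the term of `l = 0` is `1 / z`) -/
def zeta (L : PeriodPair) (z : ℂ) : ℂ := ∑' l : L.lattice, (1 / (z - l) + 1 / l + z / l ^ 2)

/-- the numbers `p`, `℘ (p)`, `℘ (α_j p)`, `ζ (α_j p)` -/
def value {m : ℕ} (L : PeriodPair) (α : Fin m → ℂ) (p : ℂ) : Fin 2 ⊕ (Fin m ⊕ Fin m) → ℂ
  | Sum.inl i => ![p, ℘[L] p] i
  | Sum.inr (Sum.inl j) => ℘[L] (α j * p)
  | Sum.inr (Sum.inr j) => zeta L (α j * p)

/-- `1, α_1, …, α_m` are linearly independent over the ring of the complex numbers `c` with `c L ⊆ L`. -/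
structure Multiples {m : ℕ} (L : PeriodPair) (α : Fin m → ℂ) : Prop where
  ind : ∀ (c₀ : ℂ) (c : Fin m → ℂ), (∀ l ∈ L.lattice, c₀ * l ∈ L.lattice) →
    (∀ j, ∀ l ∈ L.lattice, c j * l ∈ L.lattice) → c₀ + ∑ j, c j * α j = 0 → c₀ = 0 ∧ c = 0

/-- the directions `1, α_1, …, α_m` -/
def dir {m : ℕ} (α : Fin m → ℂ) : Fin (m + 1) → ℂ := Fin.cons 1 α

theorem dir_ind {m : ℕ} {L : PeriodPair} {α : Fin m → ℂ} (h : Multiples L α) (c : Fin (m + 1) → ℂ)
    (hc : ∀ j, ∀ l ∈ L.lattice, c j * l ∈ L.lattice) (h0 : ∑ j, c j * dir α j = 0) : c = 0 := by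
  rw [Fin.sum_univ_succ] at h0
  simp only [dir, Fin.cons_zero, Fin.cons_succ, mul_one] at h0
  obtain ⟨h1, h2⟩ := h.ind (c 0) (fun j => c j.succ) (hc 0) (fun j => hc _) h0
  funext j
  refine Fin.cases h1 (fun j => congrFun h2 j) j

theorem dir_ne {m : ℕ} {L : PeriodPair} {α : Fin m → ℂ} (h : Multiples L α) (j : Fin (m + 1)) : dir α j ≠ 0 := by
  classical
  intro h0
  have h1 := dir_ind h (Pi.single j 1) (fun i l hl => by
    by_cases hij : i = j
    · rw [hij, Pi.single_eq_same, one_mul]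
      exact hl
    · rw [Pi.single_eq_of_ne hij, zero_mul]
      exact zero_mem _) (by
    rw [Finset.sum_eq_single j]
    · rw [h0, mul_zero]
    · intro i _ hij
      rw [Pi.single_eq_of_ne hij, zero_mul]
    · intro hcon
      exact absurd (Finset.mem_univ j) hcon)
  have h2 := congrFun h1 j
  rw [Pi.single_eq_same] at h2
  exact one_ne_zero h2

/-- the domain -/
def domain {n : ℕ} (L : PeriodPair) (b : Fin n → ℂ) : Set ℂ := {z | ∀ j, b j * z ∉ L.lattice}

theorem lattice_countable (L : PeriodPair) : (L.lattice : Set ℂ).Countable := by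
  have h0 : Countable L.lattice := L.latticeEquivProd.toEquiv.countable_iff.2 inferInstance
  exact h0.to_set

theorem countable_compl {n : ℕ} {L : PeriodPair} {b : Fin n → ℂ} (hb : ∀ j, b j ≠ 0) : (domain L b)ᶜ.Countable := by
  have h1 : (domain L b)ᶜ ⊆ ⋃ j, (fun l : ℂ => l / b j) '' (L.lattice : Set ℂ) := by
    intro z hz
    rw [domain, Set.mem_compl_iff, Set.mem_ofPred_eq] at hz
    push Not at hz
    obtain ⟨j, hj⟩ := hz
    refine Set.mem_iUnion.2 ⟨j, b j * z, hj, ?_⟩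
    exact mul_div_cancel_left₀ z (hb j)
  exact (Set.countable_iUnion fun j => (lattice_countable L).image _).mono h1

theorem domain_open {n : ℕ} (L : PeriodPair) (b : Fin n → ℂ) : IsOpen (domain L b) := by
  have h1 : domain L b = ⋂ j, (fun z => b j * z) ⁻¹' ((L.lattice : Set ℂ)ᶜ) := by
    ext z
    simp [domain]
  rw [h1]
  exact isOpen_iInter_of_finite fun j => L.isClosed_lattice.isOpen_compl.preimage (continuous_const.mul continuous_id)

theorem domain_conn {n : ℕ} {L : PeriodPair} {b : Fin n → ℂ} (hb : ∀ j, b j ≠ 0) : IsConnected (domain L b) := by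
  have h1 := (countable_compl (L := L) hb).isPathConnected_compl_of_one_lt_rank (by
    rw [Complex.rank_real_complex]
    exact Cardinal.one_lt_two)
  rw [compl_compl] at h1
  exact h1.isConnected

theorem fx {m : ℕ} {L : PeriodPair} {α : Fin m → ℂ} (h : Multiples L α) :
    Pool.Agent.Y776.Cv.FxM (domain L (dir α)) (fun _ : Fin 1 => L) (fun _ : Fin (m + 1) => (0 : Fin 1))
      (fun j z => dir α j * z) (fun i : Fin 0 => i.elim0) where
  isOpen := domain_open L _
  conn := (domain_conn (dir_ne h)).isPreconnected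
  ni := fun c c' hcc => absurd (Subsingleton.elim c c') hcc
  ua := fun j z _ => analyticAt_const.mul analyticAt_id
  un := fun j z hz => hz j
  ui := by
    intro c w β hw _ hsum
    refine dir_ind h w hw ?_
    obtain ⟨z, hz⟩ := (domain_conn (L := L) (dir_ne h)).nonempty
    have hzU := (domain_open L (dir α)).mem_nhds hz
    have hev : ∀ᶠ y in nhds z, (∑ j, w j * dir α j) * y = β := by
      filter_upwards [hzU] with y hy
      rw [← hsum y hy, Finset.sum_mul]
      exact Finset.sum_congr rfl fun j _ => by ring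
    have hd : HasDerivAt (fun y : ℂ => (∑ j, w j * dir α j) * y) (∑ j, w j * dir α j) z := by
      simpa using (hasDerivAt_id z).const_mul (∑ j, w j * dir α j)
    have hd0 : HasDerivAt (fun y : ℂ => (∑ j, w j * dir α j) * y) 0 z :=
      (hasDerivAt_const z β).congr_of_eventuallyEq hev
    exact hd.unique hd0
  la := fun i => i.elim0
  li := fun m _ _ => funext fun i => i.elim0

/-- the functions `℘ (b_j z)`, `ζ (b_j z)` -/
def ys {n : ℕ} (L : PeriodPair) (b : Fin n → ℂ) : Fin n ⊕ Fin n → ℂ → ℂ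
  | Sum.inl j, z => ℘[L] (b j * z)
  | Sum.inr j, z => zeta L (b j * z)

theorem ys_an {m : ℕ} {L : PeriodPair} {α : Fin m → ℂ} (h : Multiples L α) (k) :
    AnalyticOnNhd ℂ (ys L (dir α) k) (domain L (dir α)) := by
  rcases k with j | j
  · exact Pool.Agent.Y776.Cv.yf_an (fx h) (Sum.inr (Sum.inr (Sum.inr (Sum.inr j))))
  · exact Pool.Agent.Y776.Cv.yf_an (fx h) (Sum.inr (Sum.inr (Sum.inr (Sum.inl j))))

theorem ys_ind {m : ℕ} {L : PeriodPair} {α : Fin m → ℂ} (h : Multiples L α) :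
    ∀ t ∈ domain L (dir α), Pool.Agent.Y124.LocInd (ys L (dir α)) t := by
  refine loc_fix (fx h) (by omega) (domain_conn (dir_ne h)).nonempty (ys_an h) (by
    simp only [Fintype.card_sum, Fintype.card_fin]
    ring) (G := Set.range (dir α)) (Set.countable_range _) ?_
  intro F hF z _ k
  rcases k with i | i | j | j | j
  · exact i.elim0
  · exact i.elim0
  · exact mul_mem (Pool.Agent.Y685.base_clo (hF ⟨j, rfl⟩)) (Pool.Agent.Y685.subset_clo (Set.mem_insert _ _))
  · exact Pool.Agent.Y685.subset_clo (Or.inr ⟨Sum.inr j, rfl⟩)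
  · exact Pool.Agent.Y685.subset_clo (Or.inr ⟨Sum.inl j, rfl⟩)

/-- the exchange of the variables -/
def sw {m : ℕ} : Option (Fin 2 ⊕ (Fin m ⊕ Fin m)) → Option (Fin (m + 1) ⊕ Fin (m + 1))
  | none => some (Sum.inr 0)
  | some (Sum.inl i) => ![none, some (Sum.inl 0)] i
  | some (Sum.inr (Sum.inl j)) => some (Sum.inl j.succ)
  | some (Sum.inr (Sum.inr j)) => some (Sum.inr j.succ)

theorem sw_inj {m : ℕ} : Function.Injective (sw (m := m)) := by
  have h2 : ∀ i : Fin 2, (i = 0 ∧ sw (m := m) (some (Sum.inl i)) = none) ∨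
      (i = 1 ∧ sw (m := m) (some (Sum.inl i)) = some (Sum.inl 0)) := by
    intro i
    fin_cases i
    · exact Or.inl ⟨rfl, rfl⟩
    · exact Or.inr ⟨rfl, rfl⟩
  have key : ∀ x y : Option (Fin 2 ⊕ (Fin m ⊕ Fin m)), sw x = sw y → x = y := by
    intro x y hxy
    rcases x with _ | i | j | j <;> rcases y with _ | i' | j' | j'
    · rfl
    · rcases h2 i' with ⟨_, h⟩ | ⟨_, h⟩ <;> rw [h] at hxy <;> simp [sw] at hxy
    · simp [sw] at hxy
    · simp only [sw, Option.some.injEq, Sum.inr.injEq] at hxy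
      exact absurd hxy.symm (Fin.succ_ne_zero _)
    · rcases h2 i with ⟨_, h⟩ | ⟨_, h⟩ <;> rw [h] at hxy <;> simp [sw] at hxy
    · rcases h2 i with ⟨hi, h⟩ | ⟨hi, h⟩ <;> rcases h2 i' with ⟨hi', h'⟩ | ⟨hi', h'⟩ <;> rw [h, h'] at hxy
      · rw [hi, hi']
      · simp at hxy
      · simp at hxy
      · rw [hi, hi']
    · rcases h2 i with ⟨_, h⟩ | ⟨_, h⟩ <;> rw [h] at hxy
      · simp [sw] at hxy
      · simp only [sw, Option.some.injEq, Sum.inl.injEq] at hxy
        exact absurd hxy.symm (Fin.succ_ne_zero _)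
    · rcases h2 i with ⟨_, h⟩ | ⟨_, h⟩ <;> rw [h] at hxy <;> simp [sw] at hxy
    · simp [sw] at hxy
    · rcases h2 i' with ⟨_, h⟩ | ⟨_, h⟩ <;> rw [h] at hxy
      · simp [sw] at hxy
      · simp only [sw, Option.some.injEq, Sum.inl.injEq] at hxy
        exact absurd hxy (Fin.succ_ne_zero _)
    · simp only [sw, Option.some.injEq, Sum.inl.injEq, Fin.succ_inj] at hxy
      rw [hxy]
    · simp [sw] at hxy
    · simp only [sw, Option.some.injEq, Sum.inr.injEq] at hxy
      exact absurd hxy (Fin.succ_ne_zero _)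
    · rcases h2 i' with ⟨_, h⟩ | ⟨_, h⟩ <;> rw [h] at hxy <;> simp [sw] at hxy
    · simp [sw] at hxy
    · simp only [sw, Option.some.injEq, Sum.inr.injEq, Fin.succ_inj] at hxy
      rw [hxy]
  exact fun x y h => key x y h

theorem sw_eval {m : ℕ} (L : PeriodPair) (α : Fin m → ℂ) (z : ℂ) (o : Option (Fin 2 ⊕ (Fin m ⊕ Fin m))) :
    (sw o).elim z (fun k => ys L (dir α) k z) = o.elim (zeta L z) fun k => value L α z k := by
  rcases o with _ | i | j | j
  · show zeta L (1 * z) = zeta L z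
    rw [one_mul]
  · fin_cases i
    · rfl
    · show ℘[L] (1 * z) = ℘[L] z
      rw [one_mul]
  · rfl
  · rfl


/-- **independence in the variable `x = ζ (z)`** -/
theorem branch_indep {m : ℕ} {L : PeriodPair} {α : Fin m → ℂ} (h : Multiples L α) {V : Set ℂ} (hVo : IsOpen V)
    (hne : V.Nonempty) {Z : ℂ → ℂ} (hZ : AnalyticOnNhd ℂ Z V) (hL : ∀ x ∈ V, Z x ∉ L.lattice)
    (hα : ∀ x ∈ V, ∀ j, α j * Z x ∉ L.lattice) (hζ : ∀ x ∈ V, zeta L (Z x) = x) :
    (∀ k, AnalyticOnNhd ℂ (fun x => value L α (Z x) k) V) ∧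
      Pool.Agent.Y771.KF.AIndepS (fun k x => value L α (Z x) k) V := by
  have hdom : ∀ x ∈ V, Z x ∈ domain L (dir α) := by
    intro x hx j
    refine Fin.cases ?_ (fun j => hα x hx j) j
    show 1 * Z x ∉ L.lattice
    rw [one_mul]
    exact hL x hx
  constructor
  · intro k x hx
    rcases k with k | j | j
    · fin_cases k
      · exact hZ x hx
      · have h1 := (ys_an h (Sum.inl 0) (Z x) (hdom x hx)).comp (hZ x hx)
        refine h1.congr (Filter.Eventually.of_forall fun w => ?_)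
        show ℘[L] (1 * Z w) = ℘[L] (Z w)
        rw [one_mul]
    · exact (ys_an h (Sum.inl j.succ) (Z x) (hdom x hx)).comp (hZ x hx)
    · exact (ys_an h (Sum.inr j.succ) (Z x) (hdom x hx)).comp (hZ x hx)
  · intro Q hQ
    obtain ⟨x₀, hx₀⟩ := hne
    have hmap : 𝓝 (Z x₀) ≤ Filter.map Z (𝓝 x₀) := by
      rcases (hZ x₀ hx₀).eventually_constant_or_nhds_le_map_nhds with hc | hm
      · exfalso
        have h1 : ∀ᶠ x in 𝓝 x₀, x = x₀ := by
          filter_upwards [hc, hVo.mem_nhds hx₀] with x hx hxV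
          rw [← hζ x hxV, hx, hζ x₀ hx₀]
        have h2 : ∀ᶠ x in 𝓝[≠] x₀, x = x₀ := h1.filter_mono nhdsWithin_le_nhds
        have h3 : ∀ᶠ x in 𝓝[≠] x₀, x ≠ x₀ := eventually_mem_nhdsWithin
        obtain ⟨x, hx1, hx2⟩ := (h2.and h3).exists
        exact hx2 hx1
      · exact hm
    apply rename_injective _ (sw_inj (m := m))
    rw [map_zero]
    apply ys_ind h (Z x₀) (hdom x₀ hx₀)
    refine Filter.Eventually.filter_mono hmap ?_
    rw [Filter.eventually_map]
    filter_upwards [hVo.mem_nhds hx₀] with x hx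
    have e0 : ((fun o : Option (Fin (m + 1) ⊕ Fin (m + 1)) => o.elim (Z x) fun k => ys L (dir α) k (Z x)) ∘ sw) =
        fun o : Option (Fin 2 ⊕ (Fin m ⊕ Fin m)) => o.elim x fun k => value L α (Z x) k := by
      funext o
      rw [Function.comp_apply, sw_eval L α (Z x) o, hζ x hx]
    rw [MvPolynomial.eval_rename, e0]
    exact hQ x hx

end Pool.Agent.H39WZ
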