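import Pool.Agent.H39WZ.Ind

/-!
# Powers `x ^ γ_j`: independence over `ℂ(x)`

`fx_exp`, `loc_exp`, `indC_lin` are copied from `Pool/Agent/X39/Near/Ax.lean` (to avoid heavy imports).
-/

set_option autoImplicit false

open Filter Topology Set
open scoped PeriodPair

noncomputable section

namespace Pool.Agent.H39WZ

open H667R3 Pool.Agent.W245.EB Pool.Agent.TH813.Ell Pool.Agent.Y685 Pool.Agent.Y685.H2
open Pool.Agent.Y776.Fam (TS TS_countable Gn countable_Gn exists_D LF countable_zeros IndC exists_cf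
  exists_notMem exists_den)
open Pool.Agent.TH813.G (NoHom)
open Pool.Agent.TH813.Rel (DF MK rk_le_of_subset_cl subset_cl)
open Pool.Agent.Y776.Cv
open Pool.Agent.Y124 (LocInd)

section
variable {U : Set ℂ} {n s q : ℕ} {Λ : Fin q → PeriodPair} {ty : Fin n → Fin q}
  {u : Fin n → ℂ → ℂ} {l : Fin s → ℂ → ℂ}

/-- exponentials only -/
theorem fx_exp (hU : IsOpen U) (hc : IsPreconnected U) (hl : ∀ k, AnalyticOnNhd ℂ (l k) U) (hi : IndC U l) :
    FxM U (fun i : Fin 0 => i.elim0) (fun i : Fin 0 => i) (fun i : Fin 0 => i.elim0) l where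
  isOpen := hU
  conn := hc
  ni := fun c => c.elim0
  ua := fun i => i.elim0
  un := fun i => i.elim0
  ui := fun c => c.elim0
  la := hl
  li := hi

/-- **exponentials and logarithms** -/
theorem loc_exp (hs : 0 < s) (hU : IsOpen U) (hc : IsPreconnected U) (hne : U.Nonempty)
    (hl : ∀ k, AnalyticOnNhd ℂ (l k) U) (hi : IndC U l)
    {κ : Type} [Fintype κ] {y : κ → ℂ → ℂ} (hy : ∀ k, AnalyticOnNhd ℂ (y k) U) (hκ : Fintype.card κ = s) {G : Set ℂ}
    (hG : G.Countable)
    (h1 : ∀ F : IntermediateField ℚ ℂ, G ⊆ F → ∀ z ∈ U, ∀ k, l k z ∈ clo F (insert z (Set.range fun k => y k z)))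
    (h2 : ∀ F : IntermediateField ℚ ℂ, G ⊆ F → ∀ z ∈ U, ∀ k,
      Complex.exp (l k z) ∈ clo F (insert z (Set.range fun k => y k z))) :
    ∀ t ∈ U, LocInd y t := by
  refine loc_fix (fx_exp hU hc hl hi) (by omega) hne hy (by omega) hG fun F hF z hz k => ?_
  rcases k with k | k | k | k | k
  · exact h1 F hF z hz k
  · exact h2 F hF z hz k
  · exact k.elim0
  · exact k.elim0
  · exact k.elim0

/-- linear functions -/
theorem indC_lin {γ : Fin s → ℂ} (hγ : ∀ m : Fin s → ℤ, ∑ k, (m k : ℂ) * γ k = 0 → m = 0) :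
    IndC (Set.univ : Set ℂ) (fun k z => γ k * z) := by
  intro m c h
  have h0 := h 0 (Set.mem_univ _)
  have h1 := h 1 (Set.mem_univ _)
  simp only [mul_zero, Finset.sum_const_zero] at h0
  simp only [mul_one] at h1
  exact hγ m (by rw [h1, ← h0])

end

theorem loc_lin' {D : ℕ} {γ : Fin (D + 1) → ℂ} (hγ : ∀ m : Fin (D + 1) → ℤ, ∑ k, (m k : ℂ) * γ k = 0 → m = 0) (t : ℂ) :
    LocInd (fun (k : Fin (D + 1)) z => Complex.exp (γ k * z)) t := by
  refine loc_exp (Nat.succ_pos D) isOpen_univ isPreconnected_univ ⟨0, Set.mem_univ _⟩ (l := fun k z => γ k * z)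
    (fun k z _ => analyticAt_const.mul analyticAt_id) (indC_lin hγ)
    (fun k z _ => (analyticAt_const.mul analyticAt_id).cexp) (by simp) (G := Set.range γ)
    (Set.countable_range _) (fun F hF z _ k => ?_) (fun F hF z _ k => ?_) t (Set.mem_univ _)
  · exact mul_mem (base_clo (hF ⟨k, rfl⟩)) (subset_clo (Set.mem_insert _ _))
  · exact subset_clo (Or.inr ⟨k, rfl⟩)

/-- **the powers are independent over `ℂ(x)`** -/
theorem pow_indep {D : ℕ} {γ : Fin D → ℂ}
    (hγ : ∀ (m₀ : ℤ) (m : Fin D → ℤ), (m₀ : ℂ) + ∑ k, (m k : ℂ) * γ k = 0 → m₀ = 0 ∧ m = 0) :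
    (∀ j, AnalyticOnNhd ℂ (fun x => Complex.exp (γ j * Complex.log x)) Complex.slitPlane) ∧
      Pool.Agent.Y771.KF.AIndepS (fun j x => Complex.exp (γ j * Complex.log x)) Complex.slitPlane := by
  constructor
  · intro j x hx
    exact (analyticAt_const.mul (analyticAt_clog hx)).cexp
  · intro Q hQ
    have hinj : Function.Injective (Option.elim · (some (0 : Fin (D + 1))) fun j : Fin D => some j.succ) := by
      intro a b hab
      rcases a with _ | a <;> rcases b with _ | b
      · rfl
      · simp only [Option.elim_none, Option.elim_some, Option.some.injEq] at hab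
        exact absurd hab.symm (Fin.succ_ne_zero _)
      · simp only [Option.elim_none, Option.elim_some, Option.some.injEq] at hab
        exact absurd hab (Fin.succ_ne_zero _)
      · simp only [Option.elim_some, Option.some.injEq, Fin.succ_inj] at hab
        rw [hab]
    apply MvPolynomial.rename_injective _ hinj
    rw [map_zero]
    apply loc_lin' (D := D) (γ := Fin.cons 1 γ) (by
      intro m hm
      rw [Fin.sum_univ_succ] at hm
      simp only [Fin.cons_zero, Fin.cons_succ, mul_one] at hm
      obtain ⟨h1, h2⟩ := hγ (m 0) (fun k => m k.succ) hm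
      funext k
      refine Fin.cases h1 (fun k => congrFun h2 k) k) 0
    have hn1 : ∀ᶠ z : ℂ in 𝓝 0, Complex.exp z ∈ Complex.slitPlane := by
      have h1 : ContinuousAt Complex.exp 0 := Complex.continuous_exp.continuousAt
      exact h1.eventually_mem (Complex.isOpen_slitPlane.mem_nhds (by rw [Complex.exp_zero]; exact Complex.one_mem_slitPlane))
    have hn2 : ∀ᶠ z : ℂ in 𝓝 0, |z.im| < Real.pi := by
      have h1 : ContinuousAt (fun z : ℂ => |z.im|) 0 := (Complex.continuous_im.abs).continuousAt
      have h2 : (fun z : ℂ => |z.im|) 0 < Real.pi := by simpa using Real.pi_pos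
      exact h1.eventually_lt_const h2
    filter_upwards [hn1, hn2] with z hz1 hz2
    rw [abs_lt] at hz2
    have hlog : Complex.log (Complex.exp z) = z := Complex.log_exp hz2.1 hz2.2.le
    have h1 := hQ (Complex.exp z) hz1
    rw [MvPolynomial.eval_rename]
    have e0 : ((fun o : Option (Fin (D + 1)) => o.elim z fun k => Complex.exp ((Fin.cons 1 γ : Fin (D + 1) → ℂ) k * z)) ∘
        (Option.elim · (some (0 : Fin (D + 1))) fun j : Fin D => some j.succ)) =
        fun o : Option (Fin D) => o.elim (Complex.exp z) fun j => Complex.exp (γ j * Complex.log (Complex.exp z)) := by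
      funext o
      rcases o with _ | j
      · simp
      · simp [hlog]
    rw [e0]
    exact h1

end Pool.Agent.H39WZ
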